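import Mathlib
import Pool.Agent.TH881.RQ.Wrap

/-! The integers `k` for which `m ^ 3 + k` is prime for some `m` in a set of positive lower density:
the exact minimal density. -/

set_option autoImplicit false

namespace Pool.Agent.Results.MP_4d57ea_nt.DenseCubes
open Finset Filter Topology

open Classical in
/-- The number of elements of `S` in `[1, x]`. -/
noncomputable def count (S : Set ℕ) (x : ℕ) : ℕ := ((Icc 1 x).filter (fun n => n ∈ S)).card

/-- The lower asymptotic density. -/
noncomputable def lowerDensity (S : Set ℕ) : ℝ := liminf (fun x : ℕ => (count S x : ℝ) / x) atTop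

/-- The natural numbers `k` such that `m ^ 3 + k` is prime for some `m ∈ A`. -/
def good (A : Set ℕ) : Set ℕ := {k | ∃ m ∈ A, (m ^ 3 + k).Prime}

/-- `F(β)`: the infimum of the lower densities of `good A` for the sets `A` of lower density at least `β`. -/
noncomputable def F (β : ℝ) : ℝ := sInf {d | ∃ A : Set ℕ, β ≤ lowerDensity A ∧ d = lowerDensity (good A)}

/-- The product of the primes up to `w`. -/
def P (w : ℕ) : ℕ := ∏ p ∈ (Icc 1 w).filter Nat.Prime, p

instance (w : ℕ) : NeZero (P w) := ⟨(Pool.Agent.TH881.Wp_pos w).ne'⟩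

open Classical in
/-- The residue classes `t` modulo `P w` such that `t + a ^ 3` is a unit for some `a ∈ B`. -/
noncomputable def localGood (w : ℕ) (B : Finset (ZMod (P w))) : Finset (ZMod (P w)) :=
  univ.filter (fun t => ∃ a ∈ B, IsUnit (t + a ^ 3))

/-- The local minimum: the infimum of `|localGood w B| / P w` over all `w` and all sets `B` of at least
`β P w` residue classes modulo `P w`. -/
noncomputable def localF (β : ℝ) : ℝ := sInf {d | ∃ w : ℕ, ∃ B : Finset (ZMod (P w)),
  β * P w ≤ B.card ∧ d = ((localGood w B).card : ℝ) / P w}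

/-- the polynomial -/
noncomputable def g : Polynomial ℤ := Polynomial.X ^ 3

open Polynomial Pool.Agent.TH881.RQ in
lemma hit_eq (A : Set ℕ) : hit false g 1 A = good A := by
  ext k
  have key : ∀ m : ℕ, ((k : ℤ) + 1 * g.eval (m : ℤ)).toNat = m ^ 3 + k := by
    intro m
    unfold g
    rw [eval_pow, eval_X, one_mul]
    have : (k : ℤ) + (m : ℤ) ^ 3 = ((m ^ 3 + k : ℕ) : ℤ) := by
      push_cast
      ring
    rw [this, Int.toNat_natCast]
  constructor
  · rintro ⟨m, -, hm, hp⟩
    rw [key] at hp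
    exact ⟨m, hm, hp⟩
  · rintro ⟨m, hm, hp⟩
    refine ⟨m, fun h => absurd h (by simp), hm, ?_⟩
    rw [key]
    exact hp

open Polynomial Pool.Agent.TH881.RQ in
lemma F_eq (β : ℝ) : F β = FFq false g 1 β := by
  unfold F FFq
  congr 1
  ext d
  constructor
  · rintro ⟨A, h1, h2⟩
    refine ⟨A, ?_, ?_⟩
    · rw [relq_false]
      exact h1
    · rw [hit_eq]
      exact h2
  · rintro ⟨A, h1, h2⟩
    refine ⟨A, ?_, ?_⟩
    · rw [relq_false] at h1
      exact h1
    · rw [hit_eq] at h2
      exact h2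

open Polynomial Pool.Agent.TH881 Pool.Agent.TH881.RQ in
lemma gd_iff' (w : ℕ) (t a : ZMod (Wp w)) : gd g 1 w t a ↔ IsUnit (t + a ^ 3) := by
  unfold gd gv g
  have h2 : t + ((1 : ℤ) : ZMod (Wp w)) * ((X ^ 3 : ℤ[X]).map (Int.castRingHom (ZMod (Wp w)))).eval a =
      t + a ^ 3 := by
    rw [Polynomial.map_pow, map_X, eval_pow, eval_X]
    push_cast
    ring
  rw [h2]

open Pool.Agent.TH881 Pool.Agent.TH881.RQ in
open Classical in
lemma sumq_eq (w : ℕ) (B : Finset (ZMod (Wp w))) : sumq g 1 w B =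
    univ.filter (fun t => ∃ a ∈ B, IsUnit (t + a ^ 3)) := by
  unfold sumq
  apply filter_congr
  intro t _
  constructor
  · rintro ⟨a, ha, h⟩
    exact ⟨a, ha, (gd_iff' w t a).1 h⟩
  · rintro ⟨a, ha, h⟩
    exact ⟨a, ha, (gd_iff' w t a).2 h⟩

open Pool.Agent.TH881 Pool.Agent.TH881.RQ in
lemma localGood_eq (w : ℕ) (B : Finset (ZMod (Wp w))) :
    ((localGood w B).card : ℝ) / P w = ((sumq g 1 w B).card : ℝ) / Wp w := by
  rw [sumq_eq]
  rfl

open Pool.Agent.TH881 Pool.Agent.TH881.RQ in
lemma AA_false (w : ℕ) : AA false w = univ := by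
  unfold AA
  rw [filter_eq_self]
  intro a _ h
  exact absurd h (by simp)

open Pool.Agent.TH881 Pool.Agent.TH881.RQ in
lemma card_AA (w : ℕ) : ((AA false w).card : ℝ) = P w := by
  rw [AA_false, card_univ, ZMod.card]
  rfl

open Pool.Agent.TH881 Pool.Agent.TH881.RG Pool.Agent.TH881.RQ in
lemma localF_eq (β : ℝ) : localF β = Flocq false g 1 β := by
  unfold localF Flocq
  congr 1
  ext d
  constructor
  · rintro ⟨w, B, h1, h2⟩
    refine ⟨w, B, ?_, ?_, ?_⟩
    · rw [AA_false]
      exact subset_univ B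
    · rw [card_AA]
      exact h1
    · exact h2.trans (localGood_eq w B)
  · rintro ⟨w, B, h0, h1, h2⟩
    refine ⟨w, B, ?_, ?_⟩
    · rw [card_AA] at h1
      exact h1
    · exact h2.trans (localGood_eq w B).symm

/-- `F(β)` is equal to the local minimum for `0 < β < 1`, and `log log (1 / β) F(β)` tends to `e ^ (-γ)`
as `β` tends to `0` from above. -/
theorem result :
    (∀ β : ℝ, 0 < β → β < 1 → F β = localF β) ∧
    Tendsto (fun β : ℝ => Real.log (Real.log (1 / β)) * F β) (𝓝[>] 0)
      (𝓝 (Real.exp (-Real.eulerMascheroniConstant))) := by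
  have hd : 2 ≤ g.natDegree := by
    unfold g
    rw [Polynomial.natDegree_X_pow]
    norm_num
  have hl : 0 < g.leadingCoeff := by
    unfold g
    rw [Polynomial.leadingCoeff_X_pow]
    norm_num
  refine ⟨?_, ?_⟩
  · intro β h0 h1
    rw [F_eq, localF_eq]
    exact Pool.Agent.TH881.RQ.formula false _ hd hl 1 (Or.inl rfl) β h0 h1
  · simp only [F_eq]
    exact Pool.Agent.TH881.RQ.law_zero false _ hd hl 1 (Or.inl rfl)

end Pool.Agent.Results.MP_4d57ea_nt.DenseCubes
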