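import Pool.Agent.Y677.KU.QuadEx

set_option autoImplicit false

/-!
# Narrow arithmetic progressions of numbers `m ^ 3 + k` with few prime factors, explicit numbers

Let `R k s` be the set of the `m` for which all prime factors of `m ^ 3 + k` are larger than
`m ^ (1 / s)`, and `P k r s` the set of the `m` in `R k s` for which `m ^ 3 + k` has at most `r` prime
factors. For instance `r = 4`, `s = 5`, intervals `(X, X + Y]` with `X ^ θ ≤ Y ≤ X`, `θ > 12 / 13`.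
For an ARBITRARY subset `A` of `R k s` all but a small proportion of the expected number of elements
of `A` in every short interval are terms of `l`-term arithmetic progressions inside `A` with
difference at most `(log X) ^ B`.
-/

namespace Pool.Agent.Results.MP_4d57ea_nt.NarrowProgressions

open Finset Filter
open Pool.Agent.TH977.PW (N)
open Pool.Agent.Y677.RSZ (InProg Outside)

/-- All prime factors of `m ^ 3 + k` are larger than `m ^ (1 / s)`. -/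
def R (k : ℤ) (s : ℕ) : Set ℕ :=
  {m | ∀ p : ℕ, p.Prime → (p : ℤ) ∣ (m : ℤ) ^ 3 + k → (m : ℝ) ^ (1 / (s : ℝ)) < (p : ℝ)}

/-- The `m` of `R k s` for which `m ^ 3 + k` has at most `r` prime factors. -/
def P (k : ℤ) (r s : ℕ) : Set ℕ :=
  {m | m ∈ R k s ∧ ((m : ℤ) ^ 3 + k).natAbs.primeFactorsList.length ≤ r}

/-- **Narrow progressions of numbers `m` for which `m ^ 3 + k` has few prime factors.** -/
theorem result (k : ℤ) (hk : ∀ a : ℤ, k ≠ a ^ 3) (r s : ℕ) (hr : 1 ≤ r) (hs : 2 ≤ s) :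
    (∀ᶠ m : ℕ in atTop, ∀ q : ℕ, q.Prime → (q : ℤ) = (m : ℤ) ^ 3 + k → m ∈ P k r s) ∧
    (∀ θ : ℝ, 0 < θ → θ ≤ 1 → 12 < θ * (3 * r + 1) → 3 < θ * r - (r - 1) / s → 2 < θ * s →
      (∃ κ : ℝ, 0 < κ ∧ ∀ᶠ X : ℕ in atTop, ∀ Y : ℕ, (X : ℝ) ^ θ ≤ Y → Y ≤ X →
        κ * Y / Real.log X ≤ N (P k r s) X (X + Y)) ∧
      ∀ l : ℕ, ∃ B : ℕ, ∀ᶠ X : ℕ in atTop, ∀ Y : ℕ, (X : ℝ) ^ θ ≤ Y → Y ≤ X →
        ∃ u d : ℕ, 1 ≤ d ∧ (d : ℝ) ≤ Real.log X ^ B ∧
          ∀ i < l, u + i * d ∈ P k r s ∧ X < u + i * d ∧ u + i * d ≤ X + Y) ∧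
    ∀ θ : ℝ, 0 < θ → ∀ l : ℕ, 2 ≤ l → ∀ ε : ℝ, 0 < ε → ∃ B : ℕ, ∀ᶠ X : ℕ in atTop, ∀ Y : ℕ,
      (X : ℝ) ^ θ ≤ Y → Y ≤ X → ∀ A : Set ℕ, A ⊆ R k s →
        (N (Outside A l (Real.log X ^ B) X (X + Y)) X (X + Y) : ℝ) ≤ ε * Y / Real.log X := by
  have h0 := Pool.Agent.Y677.KU.cub_explicit k hk r s hs (R k s) (P k r s) (fun n hn => hn.1)
    (fun m hm p hp hd => hm p hp hd) (fun m h1 h2 => ⟨h1, h2⟩)
  refine ⟨?_, h0⟩
  filter_upwards [eventually_ge_atTop (k.natAbs + 2)] with m hm q hq hqm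
  refine ⟨?_, ?_⟩
  · intro p hp hd
    rw [← hqm] at hd
    have hpq : p = q := (Nat.prime_dvd_prime_iff_eq hp hq).1 (by exact_mod_cast hd)
    subst hpq
    apply Pool.Agent.TH977.PW.rpow_lt_of_le s m p hs (by omega)
    have h3 : (m : ℤ) ≤ p := by
      rw [hqm]
      have h4 : -(k.natAbs : ℤ) ≤ k := by omega
      have h5 : (k.natAbs : ℤ) + 2 ≤ m := by exact_mod_cast hm
      have h6 : 0 ≤ (k.natAbs : ℤ) := by positivity
      nlinarith [sq_nonneg ((m : ℤ) - 1), mul_pos (show (0 : ℤ) < m by omega)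
        (show (0 : ℤ) < m by omega)]
    exact_mod_cast h3
  · rw [← hqm, Int.natAbs_natCast, Nat.primeFactorsList_prime hq]
    exact hr

end Pool.Agent.Results.MP_4d57ea_nt.NarrowProgressions
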