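import Pool.Agent.TH977.PW.Inst
import Pool.Agent.Y175.PW.Cubic

set_option autoImplicit false

/-!
# Regular neighbourhoods of the numbers `m` with `m ^ 3 + k` prime

Let `k` be an integer which is not a cube and let `R k r` be the set of the `m` for which all prime
factors of `m ^ 3 + k` are larger than `m ^ (1 / r)`. It contains, up to finitely many elements, the
set of the problem (`m ^ 3 + k` prime). For an ARBITRARY subset `A` of `R k r`, in every short
interval all but a small proportion of the expected number of elements of `A` are regular points of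
`A`: around them `A` has the expected order of magnitude in all windows, and a constant density at all
but boundedly many dyadic scales.
-/

namespace Pool.Agent.Results.MP_4d57ea_nt.RegularNeighbourhoods

open Finset Filter
open Pool.Agent.TH977.PW (N Irregular)

/-- All prime factors of `m ^ 3 + k` are larger than `m ^ (1 / r)`. -/
def R (k : ℤ) (r : ℕ) : Set ℕ :=
  {m | ∀ p : ℕ, p.Prime → (p : ℤ) ∣ (m : ℤ) ^ 3 + k → (m : ℝ) ^ (1 / (r : ℝ)) < (p : ℝ)}

/-- **Regular neighbourhoods of the numbers `m` with `m ^ 3 + k` prime.** -/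
theorem result (k : ℤ) (hk : ∀ a : ℤ, k ≠ a ^ 3) (θ : ℝ) (hθ : 0 < θ) (hθ1 : θ ≤ 1) :
    ∃ r₀ : ℕ, 2 ≤ r₀ ∧ ∀ r : ℕ, r₀ ≤ r →
      (∀ᶠ m : ℕ in atTop, ∀ q : ℕ, q.Prime → (q : ℤ) = (m : ℤ) ^ 3 + k → m ∈ R k r) ∧
      (∃ κ : ℝ, 0 < κ ∧ ∀ᶠ X : ℕ in atTop, ∀ Y : ℕ, (X : ℝ) ^ θ ≤ Y → Y ≤ X →
          κ * Y / Real.log X ≤
            N {m | m ∈ R k r ∧ ((m : ℤ) ^ 3 + k).natAbs.primeFactorsList.length ≤ r} X (X + Y)) ∧
      ∀ ε : ℝ, 0 < ε → ∃ c : ℝ, 0 < c ∧ ∀ δ : ℝ, 0 < δ → ∃ B : ℕ,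
        ∀ᶠ X : ℕ in atTop, ∀ Y : ℕ, (X : ℝ) ^ θ ≤ Y → 2 * Y ≤ X → ∀ A : Set ℕ, A ⊆ R k r →
          (N (Irregular A 1 c δ B X Y) X (X + Y) : ℝ) ≤ ε * Y / Real.log X := by
  obtain ⟨r0, hr0, h0⟩ := Pool.Agent.TH977.PW.final (fun _ : Fin 1 => Pool.Agent.Y175.PW.cub k)
    (Pool.Agent.Y175.PW.sys_cub hk) (R k)
    (fun r => {m | m ∈ R k r ∧ ((m : ℤ) ^ 3 + k).natAbs.primeFactorsList.length ≤ r}) 1
    (by simp)
    (fun r m _ hm i p hp hd => hm p hp (by rwa [Pool.Agent.Y175.PW.cub_eval] at hd))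
    (fun r m _ h1 h2 => ⟨fun p hp hd => h1 0 p hp (by rwa [Pool.Agent.Y175.PW.cub_eval]), by
      have := h2 0
      rwa [Pool.Agent.Y175.PW.cub_eval] at this⟩) θ hθ hθ1
  refine ⟨r0, hr0, fun r hr => ⟨?_, ?_, ?_⟩⟩
  · filter_upwards [eventually_ge_atTop (k.natAbs + 2)] with m hm q hq hqm
    intro p hp hd
    have h2r : 2 ≤ r := hr0.trans hr
    rw [← hqm] at hd
    have hpq : p = q := (Nat.prime_dvd_prime_iff_eq hp hq).1 (by exact_mod_cast hd)
    subst hpq
    apply Pool.Agent.TH977.PW.rpow_lt_of_le r m p h2r (by omega)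
    have h3 : (m : ℤ) ≤ p := by
      rw [hqm]
      have h4 : -(k.natAbs : ℤ) ≤ k := by omega
      have h5 : (k.natAbs : ℤ) + 2 ≤ m := by exact_mod_cast hm
      have h6 : 0 ≤ (k.natAbs : ℤ) := by positivity
      nlinarith [sq_nonneg ((m : ℤ) - 1), mul_pos (show (0 : ℤ) < m by omega) (show (0 : ℤ) < m by omega)]
    exact_mod_cast h3
  · have := (h0 r hr).1
    simpa only [pow_one] using this
  · have := (h0 r hr).2
    simpa only [pow_one] using this

end Pool.Agent.Results.MP_4d57ea_nt.RegularNeighbourhoods
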