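import Pool.Agent.Y871.LW.TopC

/-!
# Szemerédi's theorem for the primes `F(m) + k` in logarithmic windows at the zeros of `F + k`

For every integer polynomial `F` of degree `d ≥ 2` (for instance `F = x³`) and for almost all `k`: in all
windows of length at least `(log N) ^ B` near a real zero of `F + k`, the number of primes is the one
predicted by Bateman and Horn, and all but `ε` times this number of the elements of every set `T` of
arguments with prime values lie in `j`-term progressions contained in `T`. For almost all `k` there are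
`j` arguments in progression for which the numbers `m³ + k` are primes of size at most
`N ^ (2/3) (log N) ^ B`.
-/

set_option autoImplicit false

namespace Pool.Agent.Results.MP_4d57ea_nt.WindowsNearZeros

open Finset
open Polynomial (X)
open scoped Polynomial

/-- the number of residues `a` modulo `p` such that `p` divides `F(a) + k` -/
def rho (F : ℤ[X]) (k : ℤ) (p : ℕ) : ℕ :=
  ((range p).filter (fun a : ℕ => (p : ℤ) ∣ F.eval (a : ℤ) + k)).card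

/-- the product of `(p - rho(p)) / (p - 1)` over the primes `p ≤ z` -/
noncomputable def S (F : ℤ[X]) (k : ℤ) (z : ℕ) : ℝ :=
  ∏ p ∈ (range (z + 1)).filter Nat.Prime, ((p : ℝ) - rho F k p) / ((p : ℝ) - 1)

/-- the integers `m` with `a < m ≤ b` such that `F(m) + k` is a prime -/
noncomputable def P (F : ℤ[X]) (k a b : ℤ) : Finset ℤ :=
  (Ioc a b).filter (fun m : ℤ => Nat.Prime (F.eval m + k).toNat)

/-- the sum of `1 / log (F(m) + k)` over the integers `m` with `a < m ≤ b` -/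
noncomputable def M (F : ℤ[X]) (k a b : ℤ) : ℝ := ∑ m ∈ Ioc a b, 1 / Real.log ((F.eval m + k : ℤ) : ℝ)

/-- `n` is a term of a progression of `j` terms in `T` with a difference `1 ≤ d ≤ D` -/
def InProgression (T : Finset ℤ) (j : ℕ) (D : ℝ) (n : ℤ) : Prop :=
  ∃ b : ℤ, ∃ d : ℕ, 1 ≤ d ∧ (d : ℝ) ≤ D ∧ (∀ i < j, b + (i : ℤ) * d ∈ T) ∧ ∃ i < j, n = b + (i : ℤ) * d

open Classical in
/-- the elements of `T` which do not lie in such a progression -/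
noncomputable def outside (T : Finset ℤ) (j : ℕ) (D : ℝ) : Finset ℤ :=
  T.filter (fun n => ¬ InProgression T j D n)

lemma rho_lt (F : ℤ[X]) (k : ℤ) (p : ℕ) (hp : p.Prime) (h : ∃ m : ℤ, ¬ (p : ℤ) ∣ F.eval m + k) :
    Pool.Agent.TH204.WR.rho F k p < p := by
  obtain ⟨m, hm⟩ := h
  have hp0 : (0 : ℤ) < p := by exact_mod_cast hp.pos
  unfold Pool.Agent.TH204.WR.rho
  have hlt : (m % p).toNat < p := by
    have h1 := Int.emod_nonneg m hp0.ne'
    have h2 := Int.emod_lt_of_pos m hp0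
    omega
  have hcast : (((m % p).toNat : ℕ) : ℤ) = m % p := Int.toNat_of_nonneg (Int.emod_nonneg m hp0.ne')
  have hss : (range p).filter (fun a : ℕ => (p : ℤ) ∣ F.eval (a : ℤ) + k) ⊂ range p := by
    rw [filter_ssubset]
    refine ⟨(m % p).toNat, mem_range.2 hlt, ?_⟩
    intro hd
    rw [hcast] at hd
    apply hm
    have h1 : (p : ℤ) ∣ m - m % p := Int.dvd_self_sub_emod
    have h2 : (m - m % p) ∣ F.eval m - F.eval (m % p) := Polynomial.sub_dvd_eval_sub m (m % p) F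
    have h3 := dvd_add (h1.trans h2) hd
    have e : F.eval m - F.eval (m % p) + (F.eval (m % p) + k) = F.eval m + k := by ring
    rwa [e] at h3
  have := card_lt_card hss
  rwa [card_range] at this

lemma S_eq (F : ℤ[X]) (k : ℤ) (z : ℕ) : S F k z = Pool.Agent.TH204.WR.hh F k z := by
  rw [← Pool.Agent.Y871.LW.SC_eq]
  rfl

lemma rt_eq (k x : ℕ) (d : ℕ) (hd : d = k + 1) :
    Pool.Agent.TH204.WR.rt k x ^ k = (x : ℝ) ^ (1 - 1 / (d : ℝ)) := by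
  unfold Pool.Agent.TH204.WR.rt
  rw [← Real.rpow_natCast, ← Real.rpow_mul (Nat.cast_nonneg _)]
  congr 1
  rw [hd]
  push_cast
  have : (k : ℝ) + 1 ≠ 0 := by positivity
  field_simp
  ring

/-- the general statement -/
theorem main (F : ℤ[X]) (hF : 2 ≤ F.natDegree) (j : ℕ) (hj : 1 ≤ j) (κ ε : ℝ) (hε : 0 < ε) :
    ∃ E B N₀ : ℕ, ∀ N : ℕ, N₀ ≤ N → ∀ H : ℕ, Real.log N ^ B ≤ H → (H : ℝ) ^ F.natDegree ≤ N →
    ∃ Bad ⊆ Icc (-(N : ℤ)) N, (Bad.card : ℝ) ≤ ε * N ∧ ∀ k ∈ Icc (-(N : ℤ)) N, k ∉ Bad →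
    (∀ p : ℕ, p.Prime → ∃ m : ℤ, ¬ (p : ℤ) ∣ F.eval m + k) → 0 < S F k ⌊Real.log N ^ E⌋₊ ∧
    ∀ a b : ℤ, (H : ℝ) ≤ (b : ℝ) - a → (b : ℝ) - a ≤ κ * H →
      (∀ m ∈ Ioc a b, 2 ≤ F.eval m + k ∧
        ((F.eval m + k : ℤ) : ℝ) ≤ κ * ((b : ℝ) - a) * (N : ℝ) ^ (1 - 1 / (F.natDegree : ℝ))) →
      |((P F k a b).card : ℝ) - S F k ⌊Real.log N ^ E⌋₊ * M F k a b| ≤
        ε * (S F k ⌊Real.log N ^ E⌋₊ * M F k a b) ∧ 0 < (P F k a b).card ∧
      ∀ T ⊆ P F k a b, ((outside T j (Real.log N ^ B)).card : ℝ) ≤ ε * (P F k a b).card := by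
  classical
  obtain ⟨d, hd⟩ : ∃ d, F.natDegree = d + 1 := ⟨F.natDegree - 1, by omega⟩
  obtain ⟨E, B, N₀, h0⟩ := Pool.Agent.Y871.LW.nz_all d (by omega) F hd j hj (max κ 1) ε
    (le_max_right _ _) hε
  refine ⟨E, B, max N₀ 1, fun N hN H hH hHN => ?_⟩
  rw [hd] at hHN
  obtain ⟨Bad, hB1, hB2⟩ := h0 N ((le_max_left _ _).trans hN) H hH hHN
  refine ⟨Bad ∩ Icc (-(N : ℤ)) N, inter_subset_right, ?_, fun k hk hkB hadm => ?_⟩
  · refine le_trans ?_ hB1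
    exact_mod_cast card_le_card inter_subset_left
  have hkB' : k ∉ Bad := fun h => hkB (mem_inter.2 ⟨h, hk⟩)
  obtain ⟨h1, h2⟩ := hB2 k hk hkB' (fun p hp => rho_lt F k p hp (hadm p hp))
  rw [S_eq]
  refine ⟨h1, fun a b hab1 hab2 hv => ?_⟩
  have hP : P F k a b = Pool.Agent.Y871.LW.zp F k a b := by
    unfold P Pool.Agent.Y871.LW.zp
    apply filter_congr
    intro m hm
    have h3 := (hv m hm).1
    have h4 : (F.eval m + k).toNat = (F.eval m + k).natAbs := by omega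
    rw [h4]
  have hM : M F k a b = ∑ m ∈ Ioc a b, Pool.Agent.TH892.SW.wt (F.eval m + k).natAbs := by
    unfold M Pool.Agent.TH892.SW.wt
    apply sum_congr rfl
    intro m hm
    have h3 := (hv m hm).1
    have h4 : (((F.eval m + k).natAbs : ℕ) : ℤ) = F.eval m + k := by omega
    have h5 : (((F.eval m + k).natAbs : ℕ) : ℝ) = ((F.eval m + k : ℤ) : ℝ) := by
      rw [← h4]
      simp
    rw [h5]
  have hH0 : (0 : ℝ) ≤ H := Nat.cast_nonneg _
  rw [hP, hM]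
  obtain ⟨r1, r2, r3⟩ := h2 a b hab1 (hab2.trans (mul_le_mul_of_nonneg_right (le_max_left _ _) hH0)) (by
    intro m hm
    refine ⟨(hv m hm).1, (hv m hm).2.trans ?_⟩
    rw [rt_eq d N F.natDegree hd]
    apply mul_le_mul_of_nonneg_right _ (by positivity)
    exact mul_le_mul_of_nonneg_right (le_max_left _ _) (hH0.trans hab1))
  refine ⟨r1, r2, fun T hT => ?_⟩
  exact r3 T hT (outside T j (Real.log N ^ B)) (filter_subset _ _) (fun n hn => (mem_filter.1 hn).2)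

/-- no local obstruction for cubes -/
lemma cube_adm (k : ℤ) (p : ℕ) (hp : p.Prime) : ∃ m : ℤ, ¬ (p : ℤ) ∣ (X ^ 3 : ℤ[X]).eval m + k := by
  by_cases h : (p : ℤ) ∣ k
  · refine ⟨1, fun hc => ?_⟩
    rw [Polynomial.eval_pow, Polynomial.eval_X, one_pow] at hc
    have h1 : (p : ℤ) ∣ 1 := by
      have := dvd_sub hc h
      rwa [add_sub_cancel_right] at this
    have h2 : (p : ℤ) = 1 := by
      have := Int.le_of_dvd (by norm_num) h1
      have := hp.two_le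
      omega
    have := hp.two_le
    omega
  · refine ⟨0, fun hc => h ?_⟩
    rw [Polynomial.eval_pow, Polynomial.eval_X] at hc
    simpa using hc

/-- progressions of primes `m³ + k` of the least possible size -/
theorem least (j : ℕ) (hj : 1 ≤ j) (ε : ℝ) (hε : 0 < ε) : ∃ B N₀ : ℕ, ∀ N : ℕ, N₀ ≤ N →
    ∃ Bad ⊆ Icc (-(N : ℤ)) N, (Bad.card : ℝ) ≤ ε * N ∧ ∀ k ∈ Icc (-(N : ℤ)) N, k ∉ Bad →
      ∃ m d : ℤ, 1 ≤ d ∧ (d : ℝ) ≤ Real.log N ^ B ∧ ∀ i < j,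
        Nat.Prime ((m + (i : ℤ) * d) ^ 3 + k).toNat ∧
        (((m + (i : ℤ) * d) ^ 3 + k : ℤ) : ℝ) ≤ (N : ℝ) ^ ((2 : ℝ) / 3) * Real.log N ^ B := by
  classical
  have hdeg : (X ^ 3 : ℤ[X]).natDegree = 3 := by rw [Polynomial.natDegree_X_pow]
  obtain ⟨E, B, X₀, h0⟩ := main (X ^ 3) (by rw [hdeg]; norm_num) j hj 20 (min ε (1 / 2)) (by positivity)
  obtain ⟨X₁, hX₁⟩ := Pool.Agent.Y843.HS.log_ge 100
  obtain ⟨X₂, hX₂⟩ := Pool.Agent.Y843.HS.log_pow_le ((B + 2) * 3) 1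
  refine ⟨B + 2, max X₀ (max (max X₁ X₂) 1), fun N hN => ?_⟩
  have hL := hX₁ N (le_trans (le_trans (le_trans (le_max_left _ _) (le_max_left _ _)) (le_max_right _ _)) hN)
  have hLN := hX₂ N (le_trans (le_trans (le_trans (le_max_right _ _) (le_max_left _ _)) (le_max_right _ _)) hN)
  have hN1 : 1 ≤ N := le_trans (le_trans (le_max_right _ _) (le_max_right _ _)) hN
  have hNr : (0 : ℝ) ≤ N := Nat.cast_nonneg _
  obtain ⟨R, hR⟩ : ∃ R : ℝ, R = (N : ℝ) ^ ((1 : ℝ) / 3) := ⟨_, rfl⟩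
  have hR0 : 0 ≤ R := by rw [hR]; positivity
  have hR3 : R ^ 3 = N := by
    rw [hR, ← Real.rpow_natCast, ← Real.rpow_mul hNr]
    norm_num
  have hR2 : R ^ 2 = (N : ℝ) ^ ((2 : ℝ) / 3) := by
    rw [hR, ← Real.rpow_natCast, ← Real.rpow_mul hNr]
    norm_num
  have hL1 : 1 ≤ Real.log N := by linarith
  have hB0 : 1 ≤ Real.log N ^ B := one_le_pow₀ hL1
  have hLS : Real.log N ^ (B + 2) ≤ R := by
    have h1 : (Real.log N ^ (B + 2)) ^ 3 ≤ R ^ 3 := by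
      rw [hR3, ← pow_mul]
      linarith
    exact le_of_pow_le_pow_left₀ (by norm_num) hR0 h1
  obtain ⟨H, hH⟩ : ∃ H : ℕ, H = ⌈Real.log N ^ B⌉₊ := ⟨_, rfl⟩
  have hH1 : Real.log N ^ B ≤ H := by rw [hH]; exact Nat.le_ceil _
  have hH2 : (H : ℝ) ≤ 2 * Real.log N ^ B := by
    have := Nat.ceil_lt_add_one (show 0 ≤ Real.log N ^ B by positivity)
    rw [← hH] at this
    linarith
  have hL2 : (40 : ℝ) ≤ Real.log N ^ 2 := by nlinarith
  have hH0 : (1 : ℝ) ≤ H := hB0.trans hH1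
  have hHR : (H : ℝ) ≤ R := by
    refine le_trans ?_ hLS
    calc (H : ℝ) ≤ 2 * Real.log N ^ B := hH2
      _ ≤ Real.log N ^ 2 * Real.log N ^ B := mul_le_mul_of_nonneg_right (by linarith) (by positivity)
      _ = Real.log N ^ (B + 2) := by ring
  have hHN : (H : ℝ) ^ (X ^ 3 : ℤ[X]).natDegree ≤ N := by
    rw [hdeg, ← hR3]
    exact pow_le_pow_left₀ (by linarith) hHR 3
  obtain ⟨Bad, hB1, hB2, hB3⟩ := h0 N ((le_max_left _ _).trans hN) H hH1 hHN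
  refine ⟨Bad, hB1, hB2.trans (mul_le_mul_of_nonneg_right (min_le_left _ _) hNr), fun k hk hkB => ?_⟩
  rw [← hR2]
  have hkabs := hk
  rw [mem_Icc] at hkabs
  have hR1 : 1 ≤ R := hH0.trans hHR
  obtain ⟨hS, hwin⟩ := hB3 k hk hkB (cube_adm k)
  have hevl : ∀ m : ℤ, (X ^ 3 : ℤ[X]).eval m = m ^ 3 := by
    intro m
    rw [Polynomial.eval_pow, Polynomial.eval_X]
  -- the first argument with a value at least 2
  obtain ⟨a, ha1, ha2⟩ : ∃ a : ℤ, a ^ 3 + k ≤ 1 ∧ ∀ m : ℤ, a < m → 2 ≤ m ^ 3 + k := by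
    have hinh : ∃ m : ℤ, m ^ 3 + k ≤ 1 := ⟨-(N : ℤ), by
      have h1 : (1 : ℤ) ≤ N := by exact_mod_cast hN1
      have h2 : (N : ℤ) ≤ (N : ℤ) ^ 3 := le_self_pow₀ h1 (by norm_num)
      have h3 : (-(N : ℤ)) ^ 3 = -(N : ℤ) ^ 3 := by ring
      rw [h3]
      linarith [hkabs.2]⟩
    have hbd : ∃ b : ℤ, ∀ m : ℤ, m ^ 3 + k ≤ 1 → m ≤ b := ⟨(N : ℤ) + 1, by
      intro m hm
      by_contra hc
      push Not at hc
      have h1 : (1 : ℤ) ≤ N := by exact_mod_cast hN1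
      have h2 : m ≤ m ^ 3 := le_self_pow₀ (by linarith) (by norm_num)
      linarith [hkabs.1]⟩
    obtain ⟨a, ha1, ha2⟩ := Int.exists_greatest_of_bdd hbd hinh
    refine ⟨a, ha1, fun m hm => ?_⟩
    by_contra hc
    push Not at hc
    have := ha2 m (by linarith)
    omega
  have haR1 : (a : ℝ) ≤ R + 1 := by
    by_contra hc
    push Not at hc
    have h1 : (R + 1) ^ 3 ≤ (a : ℝ) ^ 3 := pow_le_pow_left₀ (by linarith) hc.le 3
    have h2 : ((a : ℝ)) ^ 3 + k ≤ 1 := by exact_mod_cast ha1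
    have h3 : -(N : ℝ) ≤ k := by exact_mod_cast hkabs.1
    have h4 : (R + 1) ^ 3 = R ^ 3 + 3 * R ^ 2 + 3 * R + 1 := by ring
    have h5 : 0 < 3 * R ^ 2 := by positivity
    linarith
  have haR2 : -(R + 1) ≤ (a : ℝ) := by
    by_contra hc
    push Not at hc
    have h1 : R ^ 3 ≤ (-((a : ℝ) + 1)) ^ 3 := pow_le_pow_left₀ (by linarith) (by linarith) 3
    have h2 : (2 : ℝ) ≤ ((a : ℝ) + 1) ^ 3 + k := by exact_mod_cast ha2 (a + 1) (by linarith)
    have h3 : (k : ℝ) ≤ N := by exact_mod_cast hkabs.2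
    have h4 : (-((a : ℝ) + 1)) ^ 3 = -((a : ℝ) + 1) ^ 3 := by ring
    rw [h4] at h1
    linarith
  have hval : ∀ m ∈ Ioc a (a + H), 2 ≤ m ^ 3 + k ∧ ((m ^ 3 + k : ℤ) : ℝ) ≤ 20 * (H * R ^ 2) := by
    intro m hm
    rw [mem_Ioc] at hm
    refine ⟨ha2 m hm.1, ?_⟩
    have h1 : (m : ℝ) - a ≤ H := by
      have : (m : ℝ) ≤ a + H := by exact_mod_cast hm.2
      linarith
    have h2 : (0 : ℝ) ≤ (m : ℝ) - a := by
      have : (a : ℝ) < m := by exact_mod_cast hm.1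
      linarith
    have h3 : ((a : ℝ)) ^ 3 + k ≤ 1 := by exact_mod_cast ha1
    obtain ⟨y, hy⟩ : ∃ y : ℝ, y = (m : ℝ) - a := ⟨_, rfl⟩
    rw [← hy] at h1 h2
    have hm' : (m : ℝ) = a + y := by rw [hy]; ring
    push_cast
    rw [hm']
    have e : ((a : ℝ) + y) ^ 3 + k = y * (3 * (a : ℝ) ^ 2 + 3 * a * y + y ^ 2) + ((a : ℝ) ^ 3 + k) := by ring
    rw [e]
    have ha' : |(a : ℝ)| ≤ 2 * R := abs_le.2 ⟨by linarith, by linarith⟩
    have ha2' : (a : ℝ) ^ 2 ≤ 4 * R ^ 2 := by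
      rw [← sq_abs]
      calc |(a : ℝ)| ^ 2 ≤ (2 * R) ^ 2 := pow_le_pow_left₀ (abs_nonneg _) ha' 2
        _ = 4 * R ^ 2 := by ring
    have hjR : y ≤ R := h1.trans hHR
    have haj : (a : ℝ) * y ≤ 2 * R ^ 2 := by
      calc (a : ℝ) * y ≤ |(a : ℝ)| * y := mul_le_mul_of_nonneg_right (le_abs_self _) h2
        _ ≤ 2 * R * R := mul_le_mul ha' hjR h2 (by linarith)
        _ = 2 * R ^ 2 := by ring
    have hj2 : y ^ 2 ≤ R ^ 2 := pow_le_pow_left₀ h2 hjR 2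
    have h4 : 3 * (a : ℝ) ^ 2 + 3 * a * y + y ^ 2 ≤ 19 * R ^ 2 := by linarith
    have h5 : y * (3 * (a : ℝ) ^ 2 + 3 * a * y + y ^ 2) ≤ H * (19 * R ^ 2) := by
      have h6 : y * (3 * (a : ℝ) ^ 2 + 3 * a * y + y ^ 2) ≤ y * (19 * R ^ 2) := mul_le_mul_of_nonneg_left h4 h2
      have h7 : y * (19 * R ^ 2) ≤ H * (19 * R ^ 2) := mul_le_mul_of_nonneg_right h1 (by positivity)
      linarith
    have h6 : (1 : ℝ) ≤ H * R ^ 2 := one_le_mul_of_one_le_of_one_le hH0 (one_le_pow₀ hR1)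
    linarith
  have hlen : (((a + (H : ℤ) : ℤ) : ℝ)) - a = H := by push_cast; ring
  have hRr : (N : ℝ) ^ (1 - 1 / (((X ^ 3 : ℤ[X]).natDegree : ℕ) : ℝ)) = R ^ 2 := by
    rw [hR2, hdeg]
    norm_num
  obtain ⟨_, hPc, hPS⟩ := hwin a (a + H) (by rw [hlen]) (by rw [hlen]; linarith) (by
    intro m hm
    obtain ⟨h1, h2⟩ := hval m hm
    rw [hevl, hlen, hRr]
    refine ⟨h1, h2.trans (le_of_eq (by ring))⟩)
  -- an element of the set which lies in a progression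
  have hex : ∃ n ∈ P (X ^ 3) k a (a + H), InProgression (P (X ^ 3) k a (a + H)) j (Real.log N ^ B) n := by
    by_contra hc
    push Not at hc
    have h1 : outside (P (X ^ 3) k a (a + H)) j (Real.log N ^ B) = P (X ^ 3) k a (a + H) := by
      unfold outside
      apply Subset.antisymm (filter_subset _ _)
      intro n hn
      exact mem_filter.2 ⟨hn, hc n hn⟩
    have h2 := hPS _ (Subset.refl _)
    rw [h1] at h2
    have h3 : min ε (1 / 2) ≤ 1 / 2 := min_le_right _ _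
    have h4 : (0 : ℝ) < (P (X ^ 3) k a (a + H)).card := by exact_mod_cast hPc
    have h5 := mul_le_mul_of_nonneg_right h3 h4.le
    linarith
  obtain ⟨n, _, m, d, hd1, hd2, hd3, _⟩ := hex
  refine ⟨m, (d : ℤ), by exact_mod_cast hd1, ?_, fun i hi => ?_⟩
  · have h1 : Real.log N ^ B ≤ Real.log N ^ (B + 2) := pow_le_pow_right₀ hL1 (by omega)
    push_cast
    exact hd2.trans h1
  · have h1 := hd3 i hi
    unfold P at h1
    rw [mem_filter, hevl] at h1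
    obtain ⟨h2, h3⟩ := h1
    refine ⟨h3, (hval _ h2).2.trans ?_⟩
    calc 20 * (H * R ^ 2) ≤ 20 * (2 * Real.log N ^ B * R ^ 2) := by
          apply mul_le_mul_of_nonneg_left _ (by norm_num)
          exact mul_le_mul_of_nonneg_right hH2 (by positivity)
      _ = 40 * (R ^ 2 * Real.log N ^ B) := by ring
      _ ≤ Real.log N ^ 2 * (R ^ 2 * Real.log N ^ B) := mul_le_mul_of_nonneg_right hL2 (by positivity)
      _ = R ^ 2 * Real.log N ^ (B + 2) := by ring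

/-- **Szemerédi's theorem for the primes `F(m) + k` in logarithmic windows at the zeros.** -/
theorem result :
    (∀ F : ℤ[X], 2 ≤ F.natDegree → ∀ (j : ℕ) (κ ε : ℝ), 1 ≤ j → 0 < ε → ∃ E B N₀ : ℕ, ∀ N : ℕ, N₀ ≤ N →
      ∀ H : ℕ, Real.log N ^ B ≤ H → (H : ℝ) ^ F.natDegree ≤ N →
      ∃ Bad ⊆ Icc (-(N : ℤ)) N, (Bad.card : ℝ) ≤ ε * N ∧ ∀ k ∈ Icc (-(N : ℤ)) N, k ∉ Bad →
      (∀ p : ℕ, p.Prime → ∃ m : ℤ, ¬ (p : ℤ) ∣ F.eval m + k) → 0 < S F k ⌊Real.log N ^ E⌋₊ ∧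
      ∀ a b : ℤ, (H : ℝ) ≤ (b : ℝ) - a → (b : ℝ) - a ≤ κ * H →
        (∀ m ∈ Ioc a b, 2 ≤ F.eval m + k ∧
          ((F.eval m + k : ℤ) : ℝ) ≤ κ * ((b : ℝ) - a) * (N : ℝ) ^ (1 - 1 / (F.natDegree : ℝ))) →
        |((P F k a b).card : ℝ) - S F k ⌊Real.log N ^ E⌋₊ * M F k a b| ≤
          ε * (S F k ⌊Real.log N ^ E⌋₊ * M F k a b) ∧ 0 < (P F k a b).card ∧
        ∀ T ⊆ P F k a b, ((outside T j (Real.log N ^ B)).card : ℝ) ≤ ε * (P F k a b).card) ∧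
    (∀ (j : ℕ) (ε : ℝ), 1 ≤ j → 0 < ε → ∃ B N₀ : ℕ, ∀ N : ℕ, N₀ ≤ N →
      ∃ Bad ⊆ Icc (-(N : ℤ)) N, (Bad.card : ℝ) ≤ ε * N ∧ ∀ k ∈ Icc (-(N : ℤ)) N, k ∉ Bad →
        ∃ m d : ℤ, 1 ≤ d ∧ (d : ℝ) ≤ Real.log N ^ B ∧ ∀ i < j,
          Nat.Prime ((m + (i : ℤ) * d) ^ 3 + k).toNat ∧
          (((m + (i : ℤ) * d) ^ 3 + k : ℤ) : ℝ) ≤ (N : ℝ) ^ ((2 : ℝ) / 3) * Real.log N ^ B) :=
  ⟨fun F hF j κ ε hj hε => main F hF j hj κ ε hε, fun j ε hj hε => least j hj ε hε⟩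

end Pool.Agent.Results.MP_4d57ea_nt.WindowsNearZeros
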